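import Pool.Agent.Lib.MP_c4ae4c_al.Transfer

/-!
Words `w(a, b)` that define an associative operation on free nilpotent groups of unbounded class.

The elements of `FreeGroup (Fin 2)` are the reduced words in `a = of 0` and `b = of 1`.
-/

namespace Pool.Agent.Results.MP_c4ae4c_al.AssocWords

open FreeGroup

/-- `wordOp w x y` is `w(x, y)`: the value of the word `w` under `a ↦ x`, `b ↦ y`. -/
def wordOp {G : Type} [Group G] (w : FreeGroup (Fin 2)) (x y : G) : G :=
  FreeGroup.lift ![x, y] w

/-- The free nilpotent group `F_n / γ_k(F_n)` of rank `n` and class `k - 1` (`k ≥ 1`); Mathlib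
numbers the lower central series of a group from `0`, so `γ_k` is its term number `k - 1`. -/
abbrev FreeNilp (n k : ℕ) : Type :=
  FreeGroup (Fin n) ⧸ (⊤ : Subgroup (FreeGroup (Fin n))).lowerCentralSeries (k - 1)

/-- Fix a rank `n ≥ 2`. The operation `x * y = w(x, y)` is associative on `F_n / γ_k(F_n)` for
arbitrarily large `k` if and only if `w` is one of `1`, `a`, `b`, `ab`, `ba`. -/
theorem result (w : FreeGroup (Fin 2)) (n : ℕ) (hn : 2 ≤ n) :
    (∀ K : ℕ, ∃ k ≥ K, ∀ x y z : FreeNilp n k,
      wordOp w (wordOp w x y) z = wordOp w x (wordOp w y z)) ↔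
    (w = 1 ∨ w = FreeGroup.of 0 ∨ w = FreeGroup.of 1 ∨
      w = FreeGroup.of 0 * FreeGroup.of 1 ∨ w = FreeGroup.of 1 * FreeGroup.of 0) := by
  constructor
  · intro h
    have hA : Lib.MP_c4ae4c_al.AssocWord w (FreeGroup (Fin n)) := by
      apply Lib.MP_c4ae4c_al.AssocWord.of_quotients
      intro K
      obtain ⟨k, hk, hk1⟩ := h (K + 1)
      exact ⟨k - 1, by omega, hk1⟩
    exact Lib.MP_c4ae4c_al.assoc_words w (hA.rank_three hn)
  · intro h K
    refine ⟨K, le_refl K, fun x y z => ?_⟩
    rcases h with rfl | rfl | rfl | rfl | rfl <;> simp [wordOp, mul_assoc]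

end Pool.Agent.Results.MP_c4ae4c_al.AssocWords
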