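import Pool.Agent.Lib.MP_c4ae4c_al.Transfer

/-!
Words `w(a, b)` that define a group operation on all free nilpotent groups.

The elements of `FreeGroup (Fin 2)` are the reduced words in `a = of 0` and `b = of 1`.
-/

namespace Pool.Agent.Results.MP_c4ae4c_al.GroupWords

open FreeGroup

/-- `wordOp w x y` is `w(x, y)`: the value of the word `w` under `a ↦ x`, `b ↦ y`. -/
def wordOp {G : Type} [Group G] (w : FreeGroup (Fin 2)) (x y : G) : G :=
  FreeGroup.lift ![x, y] w

/-- The free nilpotent group `F_n / γ_k(F_n)` of rank `n` and class `k - 1` (`k ≥ 1`); Mathlib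
numbers the lower central series of a group from `0`, so `γ_k` is its term number `k - 1`. -/
abbrev FreeNilp (n k : ℕ) : Type :=
  FreeGroup (Fin n) ⧸ (⊤ : Subgroup (FreeGroup (Fin n))).lowerCentralSeries (k - 1)

/-- The binary operation `op` makes the set `G` into a group. -/
def IsGroupOp {G : Type} (op : G → G → G) : Prop :=
  (∀ x y z, op (op x y) z = op x (op y z)) ∧
    ∃ e, (∀ x, op e x = x ∧ op x e = x) ∧ ∀ x, ∃ y, op x y = e ∧ op y x = e

/-- Property (N): for all `n ≥ 2` and `k ≥ 1` the word `w` makes the underlying set of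
`F_n / γ_k(F_n)` into a group. -/
def PropertyN (w : FreeGroup (Fin 2)) : Prop :=
  ∀ n ≥ 2, ∀ k ≥ 1, IsGroupOp (G := FreeNilp n k) (wordOp w)

/-- A weak form of property (N), for one fixed rank `n`: for arbitrarily large `k` the operation
of `w` on `F_n / γ_k(F_n)` is associative and has a two-sided identity. -/
def WeakN (n : ℕ) (w : FreeGroup (Fin 2)) : Prop :=
  ∀ K : ℕ, ∃ k ≥ K,
    (∀ x y z : FreeNilp n k, wordOp w (wordOp w x y) z = wordOp w x (wordOp w y z)) ∧
      ∃ e : FreeNilp n k, ∀ x, wordOp w e x = x ∧ wordOp w x e = x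

/-- The words with property (N) are exactly `ab` and `ba`; moreover, for a fixed rank `n ≥ 2`,
these are already the only words that satisfy the weak form of (N) in rank `n`. -/
theorem result (w : FreeGroup (Fin 2)) (n : ℕ) (hn : 2 ≤ n) :
    List.TFAE [PropertyN w, WeakN n w,
      w = FreeGroup.of 0 * FreeGroup.of 1 ∨ w = FreeGroup.of 1 * FreeGroup.of 0] := by
  have hop : ∀ {G : Type} [Group G] (w : FreeGroup (Fin 2)) (x y : G),
      wordOp w x y = Lib.MP_c4ae4c_al.sub2 x y w := fun _ _ _ => rfl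
  tfae_have 1 → 2 := by
    intro h K
    refine ⟨K + 1, by omega, ?_⟩
    obtain ⟨h1, e, h2, _⟩ := h n hn (K + 1) (by omega)
    exact ⟨h1, e, h2⟩
  tfae_have 2 → 3 := by
    intro h
    have hA : Lib.MP_c4ae4c_al.AssocWord w (FreeGroup (Fin n)) := by
      apply Lib.MP_c4ae4c_al.AssocWord.of_quotients
      intro K
      obtain ⟨k, hk, hk1, _⟩ := h (K + 1)
      exact ⟨k - 1, by omega, hk1⟩
    obtain ⟨K0, hK0⟩ := Lib.MP_c4ae4c_al.quotient_nontrivial hn
    obtain ⟨k, hk, _, e, he⟩ := h (K0 + 1)
    obtain ⟨x, hx⟩ := hK0 (k - 1) (by omega)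
    rcases Lib.MP_c4ae4c_al.assoc_words w (hA.rank_three hn) with h1 | h1 | h1 | h1 | h1
    · exfalso
      have h2 := (he x).1
      rw [hop, h1, _root_.map_one] at h2
      exact hx h2.symm
    · exfalso
      have h2 := (he x).1
      have h3 := (he (1 : FreeNilp n k)).1
      rw [hop, h1, Lib.MP_c4ae4c_al.sub2_zero] at h2 h3
      exact hx (h2.symm.trans h3)
    · exfalso
      have h2 := (he x).2
      have h3 := (he (1 : FreeNilp n k)).2
      rw [hop, h1, Lib.MP_c4ae4c_al.sub2_one] at h2 h3
      exact hx (h2.symm.trans h3)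
    · exact Or.inl h1
    · exact Or.inr h1
  tfae_have 3 → 1 := by
    rintro (rfl | rfl) m _ k _
    · refine ⟨?_, 1, ?_, ?_⟩
      · intro x y z
        simp [wordOp, mul_assoc]
      · intro x
        simp [wordOp]
      · intro x
        exact ⟨x⁻¹, by simp [wordOp], by simp [wordOp]⟩
    · refine ⟨?_, 1, ?_, ?_⟩
      · intro x y z
        simp [wordOp, mul_assoc]
      · intro x
        simp [wordOp]
      · intro x
        exact ⟨x⁻¹, by simp [wordOp], by simp [wordOp]⟩
  tfae_finish

end Pool.Agent.Results.MP_c4ae4c_al.GroupWords
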